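import Mathlib
import Pool.Agent.H21.OFB.Terms

/-!
Complete uniquely complemented lattices need not be distributive; every countable lattice is a
sublattice of such a lattice.
-/

set_option autoImplicit false

namespace Pool.Agent.Results.MP_6ae088_al.CountableLattices

open Pool.Agent.H21.OFB

/-- every element of the complete lattice `L` has exactly one complement -/
def UniquelyComplemented (L : Type) [CompleteLattice L] : Prop :=
  ∀ a : L, ∃! b : L, a ⊓ b = ⊥ ∧ a ⊔ b = ⊤

/-- distributive lattices -/
def Distributive (L : Type) [Lattice L] : Prop :=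
  ∀ x y z : L, x ⊓ (y ⊔ z) = (x ⊓ y) ⊔ (x ⊓ z)

/-- every lattice identity `s = t` which holds in `L` holds in all lattices -/
def NoIdentities (L : Type) [Lattice L] : Prop :=
  ∀ s t : Term, (∀ v : ℕ → L, s.eval v = t.eval v) →
    ∀ (M : Type) [Lattice M] (v : ℕ → M), s.eval v = t.eval v

/-- every element of `M` has at most one complement -/
def AtMostOneComplement (M : Type) [Lattice M] [BoundedOrder M] : Prop :=
  ∀ a b c : M, a ⊓ b = ⊥ → a ⊔ b = ⊤ → a ⊓ c = ⊥ → a ⊔ c = ⊤ → b = c

/-- `f` is an injective homomorphism of lattices -/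
def Embedding {M L : Type} [Lattice M] [CompleteLattice L] (f : M → L) : Prop :=
  Function.Injective f ∧ ∀ x y : M, f (x ⊔ y) = f x ⊔ f y ∧ f (x ⊓ y) = f x ⊓ f y

/-- `f` is an injective homomorphism of lattices which preserves `0` and `1` -/
def BoundedEmbedding {M L : Type} [Lattice M] [BoundedOrder M] [CompleteLattice L] (f : M → L) :
    Prop :=
  Embedding f ∧ f ⊥ = ⊥ ∧ f ⊤ = ⊤

lemma uc_of {L : Type} [CompleteLattice L] (h : ∀ a : L, ∃! b : L, IsCompl a b) :
    UniquelyComplemented L := by
  intro a
  obtain ⟨b, h1, h2⟩ := h a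
  refine ⟨b, ⟨h1.inf_eq_bot, h1.sup_eq_top⟩, fun c hc => h2 c ?_⟩
  exact IsCompl.of_eq hc.1 hc.2

/-- **Theorem.**
(1) There is a complete lattice in which every element has exactly one complement, which is not
distributive, and in which no lattice identity holds except those which hold in all lattices.
(2) Every countable lattice is a sublattice of a complete lattice in which every element has exactly
one complement.
(3) A countable bounded lattice `M` is a sublattice with the same `0` and `1` of such a lattice if
and only if every element of `M` has at most one complement. -/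
theorem result :
    (∃ (L : Type) (_ : CompleteLattice L), UniquelyComplemented L ∧ ¬ Distributive L ∧
      NoIdentities L) ∧
    (∀ (M : Type) [Lattice M] [Countable M], ∃ (L : Type) (_ : CompleteLattice L) (f : M → L),
      UniquelyComplemented L ∧ Embedding f) ∧
    ∀ (M : Type) [Lattice M] [BoundedOrder M] [Countable M], AtMostOneComplement M ↔
      ∃ (L : Type) (_ : CompleteLattice L) (f : M → L),
        UniquelyComplemented L ∧ BoundedEmbedding f := by
  refine ⟨?_, ?_, ?_⟩
  · obtain ⟨L, instL, f, h1, h2, h3, h4⟩ := Pool.Agent.H21.OFB.embed_countable (M := Free)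
    have hid := identities f h2 h3 h4
    refine ⟨L, instL, uc_of h1, fun hd => ?_, hid⟩
    have h5 := hid (.meet (.var 0) (.join (.var 1) (.var 2)))
      (.join (.meet (.var 0) (.var 1)) (.meet (.var 0) (.var 2))) (fun v => hd _ _ _)
      Pool.Agent.H6.Hunt.B6 (fun n => if n = 0 then .a else if n = 1 then .b else .c)
    exact Pool.Agent.H6.Hunt.B6.not_distrib h5.le
  · intro M _ _
    obtain ⟨L, instL, f, h1, h2, h3, h4⟩ := Pool.Agent.H21.OFB.embed_countable (M := M)
    exact ⟨L, instL, f, uc_of h1, h2, fun x y => ⟨h3 x y, h4 x y⟩⟩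
  · intro M _ _ _
    constructor
    · intro au
      obtain ⟨L, instL, f, h1, h2, h3, h4, h5, h6⟩ :=
        Pool.Agent.H21.OFB.embed_bounded (M := M) (fun a b c hb hc =>
          au a b c hb.inf_eq_bot hb.sup_eq_top hc.inf_eq_bot hc.sup_eq_top)
      exact ⟨L, instL, f, uc_of h1, ⟨h2, fun x y => ⟨h3 x y, h4 x y⟩⟩, h5, h6⟩
    · rintro ⟨L, instL, f, h1, ⟨h2, h3⟩, h4, h5⟩ a b c hb hb' hc hc'
      apply h2
      refine (h1 (f a)).unique ⟨?_, ?_⟩ ⟨?_, ?_⟩
      · rw [← (h3 a b).2, hb, h4]
      · rw [← (h3 a b).1, hb', h5]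
      · rw [← (h3 a c).2, hc, h4]
      · rw [← (h3 a c).1, hc', h5]

end Pool.Agent.Results.MP_6ae088_al.CountableLattices
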